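import Pool.Graph.R_pool_sql_team_seeded_3997aac3.Results.MP_bbacab_nt.AmpleCoprime

/-!
# Ample numbers composed of a given set of primes
-/

set_option autoImplicit false

open Finset

namespace Pool.Agent.Results.MP_bbacab_nt.EverySetOfPrimes

open Pool.Agent.Results.MP_bbacab_nt.AmpleCoprime (recDiv recDiv_eq two_mul_recDiv fA fZ fA_conv
  hasSum_factored term_fZ term_fA exists_finset)

/-- The theorem of the library, for every pair of exponents `τ < σ`. -/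
theorem exists_gen {F : Finset ℕ} (hF : ∀ p ∈ F, p.Prime) {τ σ : ℝ} (hσ0 : 0 < σ) (hτ : τ < σ)
    (hprod : 2 < ∏ p ∈ F, (1 - (p : ℝ) ^ (-σ))⁻¹) :
    {n : ℕ | n ∈ Nat.factoredNumbers F ∧ (n : ℝ) ^ τ < recDiv n}.Infinite := by
  intro hfin
  set δ : ℝ := σ - τ with hδd
  have hδ : 0 < δ := by rw [hδd]; linarith
  set Z : ℝ := ∏ p ∈ F, (1 - (p : ℝ) ^ (-σ))⁻¹ with hZdef
  have hZ : LSeriesHasSum (fZ F) (σ : ℂ) (Z : ℂ) := by
    have h := (hasSum_subtype_iff_indicator (f := fun m : ℕ => (m : ℝ) ^ (-σ))).1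
      (hasSum_factored hF hσ0)
    have h' := Complex.hasSum_ofReal.2 h
    have h2 : LSeries.term (fZ F) (σ : ℂ) = fun n =>
        (((Nat.factoredNumbers F).indicator (fun m : ℕ => (m : ℝ) ^ (-σ)) n : ℝ) : ℂ) :=
      funext (term_fZ F σ)
    rw [LSeriesHasSum, h2]
    exact h'
  have hA : LSeriesSummable (fA F) (σ : ℂ) := by
    have h := ((hasSum_subtype_iff_indicator (f := fun m : ℕ => (m : ℝ) ^ (-δ))).1
      (hasSum_factored hF hδ)).summable
    refine Summable.of_norm_bounded_eventually h ?_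
    filter_upwards [hfin.compl_mem_cofinite] with n hn
    rw [term_fA, Complex.norm_real]
    by_cases hm : n ∈ Nat.factoredNumbers F
    · rw [Set.indicator_of_mem hm, Set.indicator_of_mem hm]
      have hn0 : (0 : ℝ) < n := by
        exact_mod_cast Nat.pos_of_ne_zero (Nat.ne_zero_of_mem_factoredNumbers hm)
      have h1 : (recDiv n : ℝ) ≤ (n : ℝ) ^ τ := by
        by_contra hc
        exact hn ⟨hm, not_le.1 hc⟩
      rw [Real.norm_of_nonneg (by positivity)]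
      calc (recDiv n : ℝ) * (n : ℝ) ^ (-σ) ≤ (n : ℝ) ^ τ * (n : ℝ) ^ (-σ) := by gcongr
        _ = (n : ℝ) ^ (-δ) := by rw [← Real.rpow_add hn0]; congr 1; rw [hδd]; ring
    · rw [Set.indicator_of_notMem hm, Set.indicator_of_notMem hm, norm_zero]
  have hAs := hA.LSeriesHasSum
  have h1 : LSeriesHasSum (LSeries.convolution (fA F) (fZ F)) (σ : ℂ) (LSeries (fA F) σ * Z) :=
    hAs.convolution hZ
  have h2 : LSeriesHasSum (LSeries.convolution (fA F) (fZ F)) (σ : ℂ)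
      (2 * LSeries (fA F) σ - Z) := by
    have h3 := (hAs.smul 2).sub hZ
    refine (LSeriesHasSum_congr _ _ ?_).1 h3
    intro n hn
    rw [fA_conv F hn]
    rfl
  have h3 := h1.unique h2
  have h4 : 0 ≤ (LSeries (fA F) σ).re := by
    refine (Complex.hasSum_re hAs).nonneg fun n => ?_
    rw [term_fA, Complex.ofReal_re]
    exact Set.indicator_nonneg (fun m _ => by positivity) n
  have h5 := congrArg Complex.re h3
  simp only [Complex.mul_re, Complex.ofReal_re, Complex.ofReal_im, mul_zero, sub_zero,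
    Complex.sub_re] at h5
  norm_num at h5
  nlinarith

/-- The continuity of the product. -/
theorem exists_larger {F : Finset ℕ} (hF : ∀ p ∈ F, p.Prime) {σ : ℝ} (hσ0 : 0 < σ)
    (hprod : 2 < ∏ p ∈ F, (1 - (p : ℝ) ^ (-σ))⁻¹) :
    ∃ δ : ℝ, 0 < δ ∧ 2 < ∏ p ∈ F, (1 - (p : ℝ) ^ (-(σ + 2 * δ)))⁻¹ := by
  have hcont : ContinuousAt (fun x : ℝ => ∏ p ∈ F, (1 - (p : ℝ) ^ (-(σ + 2 * x)))⁻¹) 0 := by
    refine tendsto_finsetProd _ fun p hp => ?_
    have hp1 : (1 : ℝ) < p := by exact_mod_cast (hF p hp).one_lt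
    have h1 : ContinuousAt (fun x : ℝ => (p : ℝ) ^ (-(σ + 2 * x))) 0 :=
      ContinuousAt.rpow continuousAt_const (by fun_prop) (Or.inl (by positivity))
    refine (continuousAt_const.sub h1).inv₀ ?_
    have : (p : ℝ) ^ (-(σ + 2 * (0 : ℝ))) < 1 :=
      Real.rpow_lt_one_of_one_lt_of_neg hp1 (by linarith)
    exact (sub_pos.2 this).ne'
  have hev : ∀ᶠ x : ℝ in nhds 0, 2 < ∏ p ∈ F, (1 - (p : ℝ) ^ (-(σ + 2 * x)))⁻¹ := by
    refine hcont.eventually_const_lt ?_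
    simpa using hprod
  obtain ⟨ε, hε, hball⟩ := Metric.eventually_nhds_iff.1 hev
  refine ⟨ε / 2, by positivity, hball ?_⟩
  rw [dist_zero_right, Real.norm_of_nonneg (by positivity)]
  linarith

/-- `a(l) a(n) ≤ a(l n)` (known). -/
theorem recDiv_mul_le (n : ℕ) (hn : n ≠ 0) : ∀ l : ℕ, l ≠ 0 → recDiv l * recDiv n ≤ recDiv (l * n) := by
  classical
  intro l
  induction l using Nat.strong_induction_on with
  | _ l ih =>
  intro hl
  rcases Nat.lt_or_ge 1 l with h1 | h1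
  swap
  · have : l = 1 := by omega
    subst this
    have : recDiv 1 = 1 := by rw [recDiv_eq]; simp
    rw [this, one_mul, one_mul]
  rw [recDiv_eq l, recDiv_eq (l * n), add_mul, one_mul, sum_mul]
  have h2 : ∑ m ∈ l.properDivisors, recDiv m * recDiv n ≤
      ∑ m ∈ l.properDivisors, recDiv (m * n) := by
    apply sum_le_sum
    intro m hm
    obtain ⟨hm1, hm2⟩ := Nat.mem_properDivisors.1 hm
    exact ih m hm2 (fun h => hl (by rw [h] at hm1; exact Nat.eq_zero_of_zero_dvd hm1))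
  have h3 : ∑ m ∈ l.properDivisors, recDiv (m * n) =
      ∑ d ∈ l.properDivisors.image (fun m => m * n), recDiv d := by
    rw [sum_image]
    intro x _ y _ hxy
    exact Nat.eq_of_mul_eq_mul_right (Nat.pos_of_ne_zero hn) hxy
  have hdisj : Disjoint n.properDivisors (l.properDivisors.image (fun m => m * n)) := by
    rw [disjoint_left]
    intro d hd hd'
    obtain ⟨m, hm, rfl⟩ := mem_image.1 hd'
    have h4 := (Nat.mem_properDivisors.1 hd).2
    have h5 : m ≠ 0 := by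
      rintro rfl
      have := (Nat.mem_properDivisors.1 hm).1
      exact hl (Nat.eq_zero_of_zero_dvd this)
    have : n ≤ m * n := Nat.le_mul_of_pos_left n (Nat.pos_of_ne_zero h5)
    omega
  have hsub : n.properDivisors ∪ l.properDivisors.image (fun m => m * n) ⊆
      (l * n).properDivisors := by
    intro d hd
    rw [mem_union] at hd
    rw [Nat.mem_properDivisors]
    rcases hd with hd | hd
    · obtain ⟨h4, h5⟩ := Nat.mem_properDivisors.1 hd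
      exact ⟨h4.mul_left l, h5.trans_le (Nat.le_mul_of_pos_left n (by omega))⟩
    · obtain ⟨m, hm, rfl⟩ := mem_image.1 hd
      obtain ⟨h4, h5⟩ := Nat.mem_properDivisors.1 hm
      exact ⟨Nat.mul_dvd_mul_right h4 n, Nat.mul_lt_mul_of_pos_right h5 (Nat.pos_of_ne_zero hn)⟩
  have h6 : ∑ d ∈ n.properDivisors, recDiv d +
      ∑ d ∈ l.properDivisors.image (fun m => m * n), recDiv d ≤
      ∑ d ∈ (l * n).properDivisors, recDiv d := by
    rw [← sum_union hdisj]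
    exact sum_le_sum_of_subset hsub
  have h7 := recDiv_eq n
  omega

theorem pow_recDiv_le {n : ℕ} (hn : n ≠ 0) (r : ℕ) : recDiv n ^ r ≤ recDiv (n ^ r) := by
  induction r with
  | zero =>
    have : recDiv 1 = 1 := by rw [recDiv_eq]; simp
    rw [pow_zero, pow_zero, this]
  | succ r ih =>
    rw [pow_succ, pow_succ]
    exact (Nat.mul_le_mul_right _ ih).trans (recDiv_mul_le n hn _ (pow_ne_zero r hn))

theorem hasSum_ind {F : Finset ℕ} (hF : ∀ p ∈ F, p.Prime) {σ : ℝ} (hσ : 0 < σ) :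
    HasSum ((Nat.factoredNumbers F).indicator (fun m : ℕ => (m : ℝ) ^ (-σ)))
      (∏ p ∈ F, (1 - (p : ℝ) ^ (-σ))⁻¹) :=
  (hasSum_subtype_iff_indicator (f := fun m : ℕ => (m : ℝ) ^ (-σ))).1 (hasSum_factored hF hσ)

theorem ind_nonneg (F : Finset ℕ) (σ : ℝ) (m : ℕ) :
    0 ≤ (Nat.factoredNumbers F).indicator (fun m : ℕ => (m : ℝ) ^ (-σ)) m :=
  Set.indicator_nonneg (fun m _ => by positivity) m

theorem sum_divisors_le {F : Finset ℕ} (hF : ∀ p ∈ F, p.Prime) {σ : ℝ} (hσ : 0 < σ) {n : ℕ}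
    (hn : n ∈ Nat.factoredNumbers F) :
    ∑ e ∈ n.divisors, (e : ℝ) ^ (-σ) ≤ ∏ p ∈ F, (1 - (p : ℝ) ^ (-σ))⁻¹ := by
  have h := sum_le_hasSum n.divisors (fun m _ => ind_nonneg F σ m) (hasSum_ind hF hσ)
  refine le_trans (le_of_eq ?_) h
  apply sum_congr rfl
  intro e he
  rw [Set.indicator_of_mem]
  exact Nat.mem_factoredNumbers_of_dvd hn (Nat.dvd_of_mem_divisors he)

theorem sum_divisors_rpow {n : ℕ} (hn : n ≠ 0) (σ : ℝ) :
    ∑ m ∈ n.divisors, (m : ℝ) ^ σ = (n : ℝ) ^ σ * ∑ e ∈ n.divisors, (e : ℝ) ^ (-σ) := by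
  rw [← Nat.sum_div_divisors n (fun m => (m : ℝ) ^ σ), mul_sum]
  apply sum_congr rfl
  intro e he
  have hd := Nat.dvd_of_mem_divisors he
  have he0 : (0 : ℝ) < e := by
    exact_mod_cast Nat.pos_of_dvd_of_pos hd (Nat.pos_of_ne_zero hn)
  rw [Nat.cast_div hd he0.ne', Real.div_rpow (by positivity) he0.le, Real.rpow_neg he0.le,
    div_eq_mul_inv]

/-- If the product is at most `2`, then `a(n) ≤ 2 n ^ σ`. -/
theorem upper_two {F : Finset ℕ} (hF : ∀ p ∈ F, p.Prime) {σ : ℝ} (hσ : 0 < σ)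
    (hprod : ∏ p ∈ F, (1 - (p : ℝ) ^ (-σ))⁻¹ ≤ 2) :
    ∀ n : ℕ, n ∈ Nat.factoredNumbers F →
      (recDiv n : ℝ) + (if n = 1 then 1 else 0) ≤ 2 * (n : ℝ) ^ σ := by
  intro n
  induction n using Nat.strong_induction_on with
  | _ n ih =>
  intro hn
  have hn0 : n ≠ 0 := Nat.ne_zero_of_mem_factoredNumbers hn
  by_cases h1 : n = 1
  · subst h1
    have : recDiv 1 = 1 := by rw [recDiv_eq]; simp
    rw [this]
    norm_num
  rw [if_neg h1, add_zero, recDiv_eq n]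
  push_cast
  have hone : 1 ∈ n.properDivisors := by
    rw [Nat.mem_properDivisors]
    exact ⟨one_dvd n, by omega⟩
  have e1 : (1 : ℝ) + ∑ m ∈ n.properDivisors, (recDiv m : ℝ) =
      ∑ m ∈ n.properDivisors, ((recDiv m : ℝ) + (if m = 1 then 1 else 0)) := by
    rw [sum_add_distrib, sum_ite_eq' n.properDivisors 1 (fun _ => (1 : ℝ)), if_pos hone]
    ring
  rw [e1]
  have e2 : ∑ m ∈ n.properDivisors, ((recDiv m : ℝ) + (if m = 1 then 1 else 0)) ≤
      ∑ m ∈ n.properDivisors, 2 * (m : ℝ) ^ σ := by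
    apply sum_le_sum
    intro m hm
    obtain ⟨h2, h3⟩ := Nat.mem_properDivisors.1 hm
    exact ih m h3 (Nat.mem_factoredNumbers_of_dvd hn h2)
  refine e2.trans ?_
  rw [← mul_sum]
  have e3 : ∑ m ∈ n.divisors, (m : ℝ) ^ σ = (n : ℝ) ^ σ + ∑ m ∈ n.properDivisors, (m : ℝ) ^ σ := by
    rw [← Nat.cons_self_properDivisors hn0, sum_cons]
  have e4 := sum_divisors_rpow hn0 σ
  have e5 := (sum_divisors_le hF hσ hn).trans hprod
  have e6 : (0 : ℝ) ≤ (n : ℝ) ^ σ := by positivity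
  have e7 := mul_le_mul_of_nonneg_left e5 e6
  linarith

theorem upper {F : Finset ℕ} (hF : ∀ p ∈ F, p.Prime) {σ : ℝ} (hσ : 0 < σ)
    (hprod : ∏ p ∈ F, (1 - (p : ℝ) ^ (-σ))⁻¹ ≤ 2) {n : ℕ} (hn : n ∈ Nat.factoredNumbers F) :
    (recDiv n : ℝ) ≤ (n : ℝ) ^ σ := by
  by_contra hcon
  rw [not_le] at hcon
  have hn0 : n ≠ 0 := Nat.ne_zero_of_mem_factoredNumbers hn
  have hpos : (0 : ℝ) < (n : ℝ) ^ σ := by
    have : (0 : ℝ) < n := by exact_mod_cast Nat.pos_of_ne_zero hn0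
    positivity
  obtain ⟨r, hr⟩ := pow_unbounded_of_one_lt 2 ((one_lt_div hpos).2 hcon)
  have hmem : ∀ r : ℕ, n ^ r ∈ Nat.factoredNumbers F := by
    intro r
    induction r with
    | zero =>
      rw [pow_zero, Nat.mem_factoredNumbers']
      intro p hp hd
      exact absurd (Nat.dvd_one.1 hd) hp.one_lt.ne'
    | succ r ih => rw [pow_succ]; exact Nat.mul_mem_factoredNumbers ih hn
  have h1 := upper_two hF hσ hprod (n ^ r) (hmem r)
  have h2 : (recDiv n : ℝ) ^ r ≤ (recDiv (n ^ r) : ℝ) := by exact_mod_cast pow_recDiv_le hn0 r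
  have h3 : (0 : ℝ) ≤ if n ^ r = 1 then (1 : ℝ) else 0 := by split_ifs <;> norm_num
  have h4 : ((n ^ r : ℕ) : ℝ) ^ σ = ((n : ℝ) ^ σ) ^ r := by
    push_cast
    rw [← Real.rpow_natCast, ← Real.rpow_mul (by positivity), mul_comm, Real.rpow_mul (by positivity),
      Real.rpow_natCast]
  rw [h4] at h1
  rw [div_pow, lt_div_iff₀ (by positivity)] at hr
  linarith

/-- `n` is a positive integer all of whose prime factors lie in `S`. -/
def Over (S : Set ℕ) (n : ℕ) : Prop := n ≠ 0 ∧ ∀ p : ℕ, p.Prime → p ∣ n → p ∈ S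

theorem over_of_factored {S : Set ℕ} {F : Finset ℕ} (hF : ∀ p ∈ F, p.Prime ∧ p ∈ S) {n : ℕ}
    (hn : n ∈ Nat.factoredNumbers F) : Over S n :=
  ⟨Nat.ne_zero_of_mem_factoredNumbers hn,
    fun p hp hd => (hF p (Nat.mem_factoredNumbers'.1 hn p hp hd)).2⟩

theorem factored_primeFactors {n : ℕ} (hn : n ≠ 0) : n ∈ Nat.factoredNumbers n.primeFactors := by
  rw [Nat.mem_factoredNumbers']
  intro p hp hd
  exact Nat.mem_primeFactors.2 ⟨hp, hd, hn⟩

theorem prod_gt_of_large {S : Set ℕ} {σ : ℝ} (hσ : 0 < σ) {n : ℕ} (hn : Over S n)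
    (h : (n : ℝ) ^ σ < recDiv n) :
    ∃ F : Finset ℕ, (∀ p ∈ F, p.Prime ∧ p ∈ S) ∧ 2 < ∏ p ∈ F, (1 - (p : ℝ) ^ (-σ))⁻¹ := by
  refine ⟨n.primeFactors, fun p hp => ?_, ?_⟩
  · obtain ⟨h1, h2, _⟩ := Nat.mem_primeFactors.1 hp
    exact ⟨h1, hn.2 p h1 h2⟩
  · by_contra hcon
    rw [not_lt] at hcon
    exact absurd (upper (fun p hp => (Nat.mem_primeFactors.1 hp).1) hσ hcon
      (factored_primeFactors hn.1)) (not_le.2 h)

theorem large_of_prod_gt {S : Set ℕ} {σ : ℝ} (hσ : 0 < σ) {F : Finset ℕ}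
    (hF : ∀ p ∈ F, p.Prime ∧ p ∈ S) (hprod : 2 < ∏ p ∈ F, (1 - (p : ℝ) ^ (-σ))⁻¹) :
    ∃ δ : ℝ, 0 < δ ∧ {n : ℕ | Over S n ∧ (n : ℝ) ^ (σ + δ) < recDiv n}.Infinite := by
  obtain ⟨δ, hδ, h1⟩ := exists_larger (fun p hp => (hF p hp).1) hσ hprod
  refine ⟨δ, hδ, (exists_gen (fun p hp => (hF p hp).1) (by linarith) (τ := σ + δ)
    (by linarith) h1).mono ?_⟩
  rintro n ⟨h2, h3⟩
  exact ⟨over_of_factored hF h2, h3⟩

theorem sum_inv_eq {n : ℕ} (hn : n ≠ 0) :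
    ((∑ m ∈ n.divisors, m : ℕ) : ℝ) = n * ∑ e ∈ n.divisors, (e : ℝ) ^ (-(1 : ℝ)) := by
  have h := sum_divisors_rpow hn 1
  simp only [Real.rpow_one] at h
  push_cast
  exact h

theorem abundant_iff {n : ℕ} (hn : n ≠ 0) :
    Nat.Abundant n ↔ 2 < ∑ e ∈ n.divisors, (e : ℝ) ^ (-(1 : ℝ)) := by
  have h := sum_inv_eq hn
  have hn0 : (0 : ℝ) < n := by exact_mod_cast Nat.pos_of_ne_zero hn
  have e : ∑ m ∈ n.divisors, m = n + ∑ m ∈ n.properDivisors, m := by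
    rw [← Nat.cons_self_properDivisors hn, sum_cons]
  unfold Nat.Abundant
  constructor
  · intro h1
    have h2 : 2 * n < ∑ m ∈ n.divisors, m := by omega
    have h3 : (2 : ℝ) * n < ((∑ m ∈ n.divisors, m : ℕ) : ℝ) := by exact_mod_cast h2
    rw [h, mul_comm] at h3
    exact lt_of_mul_lt_mul_left h3 hn0.le
  · intro h1
    have h3 : (2 : ℝ) * n < ((∑ m ∈ n.divisors, m : ℕ) : ℝ) := by
      rw [h, mul_comm]
      exact mul_lt_mul_of_pos_left h1 hn0
    have h2 : 2 * n < ∑ m ∈ n.divisors, m := by exact_mod_cast h3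
    omega

theorem abundant_of_prod {S : Set ℕ} {F : Finset ℕ} (hF : ∀ p ∈ F, p.Prime ∧ p ∈ S)
    (hprod : 2 < ∏ p ∈ F, (1 - (p : ℝ) ^ (-(1 : ℝ)))⁻¹) : ∃ n : ℕ, Over S n ∧ Nat.Abundant n := by
  classical
  have h := hasSum_ind (fun p hp => (hF p hp).1) (σ := 1) one_pos (F := F)
  obtain ⟨T, hT⟩ := (h.eventually_const_lt hprod).exists
  set T' := T.filter (fun m => m ∈ Nat.factoredNumbers F) with hT'
  have hmem : ∀ m ∈ T', m ∈ Nat.factoredNumbers F := fun m hm => (mem_filter.1 hm).2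
  have hprodmem : ∏ m ∈ T', m ∈ Nat.factoredNumbers F := by
    have : ∀ U : Finset ℕ, (∀ m ∈ U, m ∈ Nat.factoredNumbers F) →
        ∏ m ∈ U, m ∈ Nat.factoredNumbers F := by
      intro U
      induction U using Finset.induction_on with
      | empty =>
        intro _
        rw [prod_empty, Nat.mem_factoredNumbers']
        intro p hp hd
        exact absurd (Nat.dvd_one.1 hd) hp.one_lt.ne'
      | insert a U ha ih =>
        intro hU
        rw [prod_insert ha]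
        exact Nat.mul_mem_factoredNumbers (hU a (mem_insert_self a U))
          (ih fun m hm => hU m (mem_insert_of_mem hm))
    exact this T' hmem
  refine ⟨∏ m ∈ T', m, over_of_factored hF hprodmem, ?_⟩
  have hn0 : ∏ m ∈ T', m ≠ 0 := Nat.ne_zero_of_mem_factoredNumbers hprodmem
  rw [abundant_iff hn0]
  have hsub : T' ⊆ (∏ m ∈ T', m).divisors := by
    intro m hm
    rw [Nat.mem_divisors]
    exact ⟨dvd_prod_of_mem _ hm, hn0⟩
  calc (2 : ℝ) < ∑ m ∈ T, (Nat.factoredNumbers F).indicator (fun m : ℕ => (m : ℝ) ^ (-(1 : ℝ))) m := hT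
    _ = ∑ m ∈ T', (m : ℝ) ^ (-(1 : ℝ)) := by
      rw [hT', sum_filter]
      apply sum_congr rfl
      intro m _
      by_cases hm : m ∈ Nat.factoredNumbers F
      · rw [Set.indicator_of_mem hm, if_pos hm]
      · rw [Set.indicator_of_notMem hm, if_neg hm]
    _ ≤ _ := sum_le_sum_of_subset_of_nonneg hsub fun m _ _ => by positivity

theorem prod_of_abundant {S : Set ℕ} {n : ℕ} (hn : Over S n) (h : Nat.Abundant n) :
    ∃ F : Finset ℕ, (∀ p ∈ F, p.Prime ∧ p ∈ S) ∧ 2 < ∏ p ∈ F, (1 - (p : ℝ) ^ (-(1 : ℝ)))⁻¹ := by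
  refine ⟨n.primeFactors, fun p hp => ?_, ?_⟩
  · obtain ⟨h1, h2, _⟩ := Nat.mem_primeFactors.1 hp
    exact ⟨h1, hn.2 p h1 h2⟩
  · refine lt_of_lt_of_le ((abundant_iff hn.1).1 h) ?_
    exact sum_divisors_le (fun p hp => (Nat.mem_primeFactors.1 hp).1) one_pos
      (factored_primeFactors hn.1)

theorem prod_one_iff {F : Finset ℕ} (hF : ∀ p ∈ F, p.Prime) :
    2 < ∏ p ∈ F, (1 - (p : ℝ) ^ (-(1 : ℝ)))⁻¹ ↔ 2 * ∏ p ∈ F, (p - 1) < ∏ p ∈ F, p := by
  have e : ∏ p ∈ F, (1 - (p : ℝ) ^ (-(1 : ℝ)))⁻¹ = (∏ p ∈ F, (p : ℝ)) / ∏ p ∈ F, ((p : ℝ) - 1) := by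
    rw [← prod_div_distrib]
    apply prod_congr rfl
    intro p hp
    have h1 : (1 : ℝ) < p := by exact_mod_cast (hF p hp).one_lt
    have h2 : (p : ℝ) - 1 ≠ 0 := by linarith
    have h3 : (p : ℝ) ≠ 0 := by linarith
    rw [Real.rpow_neg_one]
    field_simp
  have hpos : 0 < ∏ p ∈ F, ((p : ℝ) - 1) := by
    apply prod_pos
    intro p hp
    have h1 : (1 : ℝ) < p := by exact_mod_cast (hF p hp).one_lt
    linarith
  have e2 : ((∏ p ∈ F, (p - 1) : ℕ) : ℝ) = ∏ p ∈ F, ((p : ℝ) - 1) := by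
    rw [Nat.cast_prod]
    apply prod_congr rfl
    intro p hp
    rw [Nat.cast_sub (hF p hp).one_lt.le, Nat.cast_one]
  rw [e, lt_div_iff₀ hpos, ← e2, ← Nat.cast_prod]
  exact_mod_cast Iff.rfl

/-- **Theorem.** -/
theorem result :
    -- (1) every set of primes and every exponent
    (∀ (S : Set ℕ) (σ : ℝ), 0 < σ →
      ((∃ n : ℕ, Over S n ∧ (n : ℝ) ^ σ < recDiv n) ↔
        ∃ F : Finset ℕ, (∀ p ∈ F, p.Prime ∧ p ∈ S) ∧ 2 < ∏ p ∈ F, (1 - (p : ℝ) ^ (-σ))⁻¹) ∧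
      ((∃ n : ℕ, Over S n ∧ (n : ℝ) ^ σ < recDiv n) →
        ∃ δ : ℝ, 0 < δ ∧ {n : ℕ | Over S n ∧ (n : ℝ) ^ (σ + δ) < recDiv n}.Infinite)) ∧
    -- (2) ample numbers, abundant numbers, and the criterion
    (∀ S : Set ℕ,
      ((∃ n : ℕ, Over S n ∧ n < recDiv n) ↔ ∃ n : ℕ, Over S n ∧ Nat.Abundant n) ∧
      ((∃ n : ℕ, Over S n ∧ n < recDiv n) ↔
        ∃ F : Finset ℕ, (∀ p ∈ F, p.Prime ∧ p ∈ S) ∧ 2 * ∏ p ∈ F, (p - 1) < ∏ p ∈ F, p)) ∧
    -- (3) the question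
    (∀ k : ℕ, 1 ≤ k → ∃ n : ℕ, 0 < n ∧ n < recDiv n ∧
      Nat.gcd n (∏ i ∈ range k, Nat.nth Nat.Prime i) = 1) := by
  have h1 : ∀ S : Set ℕ, (∃ n : ℕ, Over S n ∧ n < recDiv n) ↔
      ∃ F : Finset ℕ, (∀ p ∈ F, p.Prime ∧ p ∈ S) ∧
        2 < ∏ p ∈ F, (1 - (p : ℝ) ^ (-(1 : ℝ)))⁻¹ := by
    intro S
    constructor
    · rintro ⟨n, hn, h⟩
      exact prod_gt_of_large one_pos hn (by rw [Real.rpow_one]; exact_mod_cast h)
    · rintro ⟨F, hF, hprod⟩
      obtain ⟨δ, hδ, hinf⟩ := large_of_prod_gt one_pos hF hprod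
      obtain ⟨n, hn, h⟩ := hinf.nonempty
      refine ⟨n, hn, ?_⟩
      have hn1 : (1 : ℝ) ≤ n := by exact_mod_cast Nat.one_le_iff_ne_zero.2 hn.1
      have h2 : (n : ℝ) ^ (1 : ℝ) ≤ (n : ℝ) ^ (1 + δ) :=
        Real.rpow_le_rpow_of_exponent_le hn1 (by linarith)
      rw [Real.rpow_one] at h2
      exact_mod_cast lt_of_le_of_lt h2 h
  refine ⟨?_, ?_, ?_⟩
  · intro S σ hσ
    have h2 : ∀ F : Finset ℕ, (∀ p ∈ F, p.Prime ∧ p ∈ S) →
        2 < ∏ p ∈ F, (1 - (p : ℝ) ^ (-σ))⁻¹ → ∃ n : ℕ, Over S n ∧ (n : ℝ) ^ σ < recDiv n := by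
      intro F hF hprod
      obtain ⟨δ, hδ, hinf⟩ := large_of_prod_gt hσ hF hprod
      obtain ⟨n, hn, h⟩ := hinf.nonempty
      refine ⟨n, hn, ?_⟩
      have hn1 : (1 : ℝ) ≤ n := by exact_mod_cast Nat.one_le_iff_ne_zero.2 hn.1
      exact lt_of_le_of_lt (Real.rpow_le_rpow_of_exponent_le hn1 (by linarith)) h
    refine ⟨⟨?_, ?_⟩, ?_⟩
    · rintro ⟨n, hn, h⟩
      exact prod_gt_of_large hσ hn h
    · rintro ⟨F, hF, hprod⟩
      exact h2 F hF hprod
    · rintro ⟨n, hn, h⟩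
      obtain ⟨F, hF, hprod⟩ := prod_gt_of_large hσ hn h
      exact large_of_prod_gt hσ hF hprod
  · intro S
    refine ⟨?_, ?_⟩
    · rw [h1 S]
      constructor
      · rintro ⟨F, hF, hprod⟩
        exact abundant_of_prod hF hprod
      · rintro ⟨n, hn, h⟩
        exact prod_of_abundant hn h
    · rw [h1 S]
      constructor
      · rintro ⟨F, hF, hprod⟩
        exact ⟨F, hF, (prod_one_iff fun p hp => (hF p hp).1).1 hprod⟩
      · rintro ⟨F, hF, hprod⟩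
        exact ⟨F, hF, (prod_one_iff fun p hp => (hF p hp).1).2 hprod⟩
  · intro k _
    obtain ⟨F, hF, hFk, hprod⟩ := exists_finset k
    obtain ⟨n, hn, h⟩ := (h1 {p | ∀ i < k, p ≠ Nat.nth Nat.Prime i}).2
      ⟨F, fun p hp => ⟨hF p hp, fun i hi => hFk p hp i hi⟩, hprod⟩
    refine ⟨n, Nat.pos_of_ne_zero hn.1, h, ?_⟩
    rw [← Nat.coprime_iff_gcd_eq_one, Nat.coprime_prod_right_iff]
    intro i hi
    have hp := Nat.prime_nth_prime i
    refine ((Nat.Prime.coprime_iff_not_dvd hp).2 ?_).symm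
    intro hd
    exact hn.2 _ hp hd i (mem_range.1 hi) rfl

end Pool.Agent.Results.MP_bbacab_nt.EverySetOfPrimes
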